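import Pool.Agent.H41.Junta

open Pool.Agent.H41.Junta

theorem Pool.Agent.Results.MP_5036fd_co.Disproof.result (C : ℝ) :
    ∃ (M ε : ℝ) (n : ℕ) (f : (Fin n → Bool) → Bool), 0 < M ∧ 0 < ε ∧ ε < 1 ∧ 1 ≤ n ∧
      0 < mean f ∧ totalInf f ≤ 2 * mean f * (Real.logb 2 (1 / mean f) + M) ∧
      ∀ (g : (Fin n → Bool) → Bool) (J : Finset (Fin n)), OnlyUses g J →
        pr (fun x => f x ≠ g x) ≤ ε * mean f →
        C * Real.logb 2 (1 / mean f) * (2 : ℝ) ^ (M / ε) < J.card := by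
  obtain ⟨M, n, f, h1, h2, h3, h4, h5⟩ := main C
  exact ⟨M, 3 / 4, n, f, h1, by norm_num, by norm_num, h2, h3, h4, h5⟩
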